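import Pool.Agent.BE.DerH

/-!
# BE-CDerEq: the derived functor of an equivalence of abelian categories is an equivalence

`homology_map`: as `homology_der` (same proof, two categories). `isEquiv_der`: `F.mapHomologicalComplex` and
`F.inv.mapHomologicalComplex` are morphisms of localizers (quasi-isomorphisms are preserved), and unit and
counit of `Equivalence.mapHomologicalComplex` are isomorphisms, so
`LocalizerMorphism.isLocalizedEquivalence_of_unit_of_unit` applies.
-/

open CategoryTheory CategoryTheory.Limits CategoryTheory.Pretriangulated DerivedCategory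

namespace Pool.Agent.BE.C

universe w1 w2 v1 v2 u1 u2

variable {A : Type u1} [Category.{v1} A] [Abelian A] [HasDerivedCategory.{w1} A]
  {B : Type u2} [Category.{v2} B] [Abelian B] [HasDerivedCategory.{w2} B]

/-- on complexes -/
private noncomputable def hcIso (F : A ⥤ B) [F.Additive] [PreservesFiniteLimits F]
    [PreservesFiniteColimits F] (n : ℤ) :
    F.mapHomologicalComplex (ComplexShape.up ℤ) ⋙ HomologicalComplex.homologyFunctor B (ComplexShape.up ℤ) n ≅
      HomologicalComplex.homologyFunctor A (ComplexShape.up ℤ) n ⋙ F :=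
  Functor.isoWhiskerLeft (HomologicalComplex.shortComplexFunctor A (ComplexShape.up ℤ) n)
    (ShortComplex.homologyFunctorIso F)

theorem homology_map (F : A ⥤ B) [F.Additive] [PreservesFiniteLimits F]
    [PreservesFiniteColimits F] (n : ℤ) :
    Nonempty (F.mapDerivedCategory ⋙ homologyFunctor B n ≅ homologyFunctor A n ⋙ F) := by
  let G₁ : CochainComplex A ℤ ⥤ B := F.mapHomologicalComplex (ComplexShape.up ℤ) ⋙
    HomologicalComplex.homologyFunctor B (ComplexShape.up ℤ) n
  let G₂ : CochainComplex A ℤ ⥤ B := HomologicalComplex.homologyFunctor A (ComplexShape.up ℤ) n ⋙ F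
  let l₁ : Localization.Lifting (Q (C := A)) (HomologicalComplex.quasiIso A (ComplexShape.up ℤ)) G₁
      (F.mapDerivedCategory ⋙ homologyFunctor B n) :=
    ⟨Functor.isoWhiskerRight F.mapDerivedCategoryFactors (homologyFunctor B n) ≪≫
      Functor.isoWhiskerLeft (F.mapHomologicalComplex (ComplexShape.up ℤ)) (homologyFunctorFactors B n)⟩
  let l₂ : Localization.Lifting (Q (C := A)) (HomologicalComplex.quasiIso A (ComplexShape.up ℤ)) G₂
      (homologyFunctor A n ⋙ F) :=
    ⟨Functor.isoWhiskerRight (homologyFunctorFactors A n) F⟩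
  exact ⟨Localization.liftNatIso (Q (C := A)) (HomologicalComplex.quasiIso A (ComplexShape.up ℤ)) G₁ G₂ _ _
    (hcIso F n)⟩

theorem isEquiv_der (F : A ⥤ B) [F.Additive] [PreservesFiniteLimits F]
    [PreservesFiniteColimits F] [F.IsEquivalence] : F.mapDerivedCategory.IsEquivalence := by
  let E : A ≌ B := F.asEquivalence
  have hE : E.functor.Additive := inferInstanceAs (F.Additive)
  have hE' : E.inverse.Additive := E.inverse_additive
  have hI : F.inv.Additive := hE'
  have : PreservesFiniteLimits F.inv := inferInstance
  have : PreservesFiniteColimits F.inv := inferInstance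
  let e : CochainComplex A ℤ ≌ CochainComplex B ℤ := E.mapHomologicalComplex (ComplexShape.up ℤ)
  let Φ := F.mapHomologicalComplexUpToQuasiIsoLocalizerMorphism (ComplexShape.up ℤ)
  let Ψ := F.inv.mapHomologicalComplexUpToQuasiIsoLocalizerMorphism (ComplexShape.up ℤ)
  have hΦ : Φ.IsLocalizedEquivalence :=
    LocalizerMorphism.isLocalizedEquivalence_of_unit_of_unit Φ Ψ e.unitIso.hom e.counitIso.inv
      (fun X => MorphismProperty.of_isIso _ _) (fun X => MorphismProperty.of_isIso _ _)
  have : CatCommSq Φ.functor (Q (C := A)) (Q (C := B)) F.mapDerivedCategory :=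
    ⟨F.mapDerivedCategoryFactors.symm⟩
  exact Φ.isEquivalence (Q (C := A)) (Q (C := B)) F.mapDerivedCategory

end Pool.Agent.BE.C
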