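import Pool.Agent.BE.C.Defs
import Pool.Agent.BE.C.DerEq
import Pool.Agent.BE.MainDefs
import Pool.Agent.BE.DbcT

/-!
# BE-CCmp: coherence, skyscrapers and `Db` under the equivalence `toQ`
-/

open CategoryTheory CategoryTheory.Limits CategoryTheory.Pretriangulated AlgebraicGeometry
  TopologicalSpace DerivedCategory Opposite

namespace Pool.Agent.BE.C

universe w w'

variable {S : Scheme.{0}}

theorem coh_toQ (M : QSh S) : BE.Coh ((toQ S).obj M) ↔ M.Coh :=
  ⟨fun h U => h U, fun h U => h U⟩

theorem sky_iso (x : S) (hx : IsClosed ({x} : Set S)) :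
    Nonempty ((toQ S).obj (C.sky x) ≅ BE.sky x hx) :=
  ⟨{ hom := mkHom (M := toObj (C.sky x)) (N := BE.sky x hx)
          (fun U =>
            { toFun := fun m => m
              map_add' := fun _ _ => rfl
              map_smul' := fun _ _ => rfl }) (fun h m => rfl)
     inv := mkHom (M := BE.sky x hx) (N := toObj (C.sky x))
          (fun U =>
            { toFun := fun m => m
              map_add' := fun _ _ => rfl
              map_smul' := fun _ _ => rfl }) (fun h m => rfl)
     hom_inv_id := qhom_ext (fun _ _ => rfl)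
     inv_hom_id := qhom_ext (fun _ _ => rfl) }⟩

instance toQ_additive : (toQ S).Additive :=
  Functor.additive_of_preserves_binary_products _

theorem coh_iso {M N : QSh S} (e : M ≅ N) (h : M.Coh) : N.Coh :=
  (coh_toQ N).1 (coh_of_iso ((toQ S).mapIso e) ((coh_toQ M).2 h))

instance db_iso [HasDerivedCategory.{w} (QSh S)] : (Db S).IsClosedUnderIsomorphisms where
  of_iso {X Y} e hX := by
    obtain ⟨h1, a, b, h2⟩ := hX
    refine ⟨fun n => coh_iso ((homologyFunctor (QSh S) n).mapIso e) (h1 n), a, b, fun n hn => ?_⟩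
    exact (h2 n hn).of_iso ((homologyFunctor (QSh S) n).mapIso e.symm)

theorem dbc_iff [HasDerivedCategory.{w} (QSh S)] [HasDerivedCategory.{w'} (QCoh S)]
    (X : DerivedCategory (QSh S)) :
    Dbc S ((toQ S).mapDerivedCategory.obj X) ↔ Db S X := by
  have e : ∀ n : ℤ, Nonempty (Hn n ((toQ S).mapDerivedCategory.obj X) ≅
      (toQ S).obj ((homologyFunctor (QSh S) n).obj X)) := fun n => by
    obtain ⟨i⟩ := homology_map (toQ S) n
    exact ⟨i.app X⟩
  have hz : ∀ n : ℤ, IsZero (Hn n ((toQ S).mapDerivedCategory.obj X)) ↔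
      IsZero ((homologyFunctor (QSh S) n).obj X) := by
    intro n
    obtain ⟨i⟩ := e n
    rw [i.isZero_iff]
    constructor
    · intro h
      rw [IsZero.iff_id_eq_zero] at h ⊢
      apply (toQ S).map_injective
      rw [(toQ S).map_id, h, Functor.map_zero]
    · exact fun h => (toQ S).map_isZero h
  constructor
  · rintro ⟨h1, a, b, h2⟩
    refine ⟨fun n => ?_, a, b, fun n hn => (hz n).1 (h2 n hn)⟩
    obtain ⟨i⟩ := e n
    exact (coh_toQ _).1 (coh_of_iso i (h1 n))
  · rintro ⟨h1, a, b, h2⟩
    refine ⟨fun n => ?_, a, b, fun n hn => (hz n).2 (h2 n hn)⟩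
    obtain ⟨i⟩ := e n
    exact coh_of_iso i.symm ((coh_toQ _).2 (h1 n))

theorem db_tri [IsLocallyNoetherian S] [HasDerivedCategory.{w} (QSh S)] :
    (Db S).IsTriangulated := by
  let _ : HasDerivedCategory (QCoh S) := HasDerivedCategory.standard _
  have h : (Dbc S).inverseImage (toQ S).mapDerivedCategory = Db S := by
    funext X
    exact propext (dbc_iff X)
  rw [← h]
  infer_instance

end Pool.Agent.BE.C
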