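import Pool.Agent.BE.C.ToQ
import Pool.Agent.BE.Stab
import Pool.Agent.BE.Sky0

/-!
# Project BE: the definitions used in the final statement (compact form)
-/

open CategoryTheory CategoryTheory.Limits CategoryTheory.Pretriangulated AlgebraicGeometry
  TopologicalSpace DerivedCategory Opposite

namespace Pool.Agent.BE.C

universe w

noncomputable instance ab (S : Scheme.{0}) : Abelian (QSh S) := (nonempty_abelian S).some

/-- Coherent sheaves (`S` locally noetherian): all modules of sections are finitely generated. -/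
def QSh.Coh {S : Scheme.{0}} (M : QSh S) : Prop := ∀ U : Aff S, Module.Finite (Fn S U) (M.sec U)

/-- Sections of the skyscraper sheaf at `x`: functions from the proposition `x ∈ U` to `κ(x)`,
i.e. `κ(x)` if `x ∈ U` and `0` otherwise. -/
def SkySec {S : Scheme.{0}} (x : S) (U : Aff S) : Type := PLift (x ∈ U.1) → S.residueField x

noncomputable instance skyGrp {S : Scheme.{0}} (x : S) (U : Aff S) : AddCommGroup (SkySec x U) :=
  Pi.addCommGroup

/-- a function `a` on `U` acts by multiplication by its value `a(x)` -/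
noncomputable instance skyMod {S : Scheme.{0}} (x : S) (U : Aff S) :
    Module (Fn S U) (SkySec x U) :=
  @Pi.module (PLift (x ∈ U.1)) (fun _ => S.residueField x) (Fn S U) _ _
    (fun h => Module.compHom (S.residueField x) (Fn.val x h.down).hom)

/-- restriction -/
def skyRes {S : Scheme.{0}} (x : S) {V U : Aff S} (hVU : V ≤ U) (m : SkySec x U) : SkySec x V :=
  fun h => m ⟨hVU h.down⟩

theorem skyRes_add {S : Scheme.{0}} (x : S) {V U : Aff S} (h : V ≤ U) (m m' : SkySec x U) :
    skyRes x h (m + m') = skyRes x h m + skyRes x h m' := rfl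

theorem skyRes_smul {S : Scheme.{0}} (x : S) {V U : Aff S} (h : V ≤ U) (a : Fn S U)
    (m : SkySec x U) : skyRes x h (a • m) = Fn.res h a • skyRes x h m := by
  funext h'
  change (Fn.val x (h h'.down)).hom a * m ⟨h h'.down⟩ =
    (Fn.val x h'.down).hom ((Fn.res h).hom a) * m ⟨h h'.down⟩
  congr 1
  exact (ev_rst (S := S) h x h'.down a).symm

theorem sky_inj {S : Scheme.{0}} (x : S) (U : Aff S) (f : Fn S U) (m : SkySec x U)
    (hm : skyRes x (dOpen_le U f) m = 0) : ∃ n : ℕ, f ^ n • m = 0 := by
  by_cases h : x ∈ (dOpen U f).1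
  · refine ⟨0, ?_⟩
    rw [pow_zero, one_smul]
    funext h'
    exact congrFun hm ⟨h⟩
  · refine ⟨1, ?_⟩
    rw [pow_one]
    funext h'
    change (Fn.val x h'.down).hom f * m h' = 0
    have h0 : (Fn.val x h'.down).hom f = 0 := by
      by_contra hne
      exact h ((S.evaluation_ne_zero_iff_mem_basicOpen x h'.down f).1 hne)
    rw [h0, zero_mul]

theorem sky_surj {S : Scheme.{0}} (x : S) (U : Aff S) (f : Fn S U)
    (y : SkySec x (dOpen U f)) : ∃ (n : ℕ) (m : SkySec x U),
      skyRes x (dOpen_le U f) m = (Fn.res (dOpen_le U f) f) ^ n • y := by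
  by_cases h : x ∈ (dOpen U f).1
  · refine ⟨0, (fun _ => y ⟨h⟩), ?_⟩
    rw [pow_zero, one_smul]
    rfl
  · refine ⟨0, 0, ?_⟩
    funext h'
    exact absurd h'.down h

/-- The skyscraper sheaf `O_x` with value `κ(x)` at the point `x` (used for closed points). -/
noncomputable def sky {S : Scheme.{0}} (x : S) : QSh S where
  sec U := SkySec x U
  res h := skyRes x h
  res_add h := skyRes_add x h
  res_smul h := skyRes_smul x h
  res_id _ _ := rfl
  res_comp _ _ _ := rfl
  inj U f m hm := sky_inj x U f m hm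
  surj U f y := sky_surj x U f y

/-- `D^b(S)`: the objects of the derived category of quasi-coherent sheaves with bounded coherent
cohomology. -/
def Db (S : Scheme.{0}) [HasDerivedCategory.{w} (QSh S)] : ObjectProperty (DerivedCategory (QSh S)) :=
  fun X => (∀ n : ℤ, ((homologyFunctor (QSh S) n).obj X).Coh) ∧
    ∃ a b : ℤ, ∀ n : ℤ, (n < a ∨ b < n) → IsZero ((homologyFunctor (QSh S) n).obj X)

/-- Locally finite Bridgeland stability conditions on `D^b(S)`. -/
def Stab (S : Scheme.{0}) [HasDerivedCategory.{w} (QSh S)] := StabCond (Db S)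

/-- `O_x` is `σ`-stable of phase `φ`. -/
def SkyStable {S : Scheme.{0}} [HasDerivedCategory.{w} (QSh S)] (σ : Stab S) (φ : ℝ) (x : S) : Prop :=
  StabCond.StableOf σ φ ((singleFunctor (QSh S) 0).obj (sky x))

/-- `Z(O_x)`. -/
noncomputable def skyZ {S : Scheme.{0}} [HasDerivedCategory.{w} (QSh S)] (σ : Stab S) (x : S) : ℂ :=
  StabCond.Z σ ((singleFunctor (QSh S) 0).obj (sky x))

end Pool.Agent.BE.C
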