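import Pool.Agent.BE.Stab
import Pool.Agent.BE.GeoDefs

/-!
# Project BE: the category of quasi-coherent sheaves (compact form)
-/

open CategoryTheory CategoryTheory.Limits CategoryTheory.Pretriangulated AlgebraicGeometry
  TopologicalSpace DerivedCategory Opposite

namespace Pool.Agent.BE.C

/-- `Γ(S, U)`, the ring of functions on the affine open `U`. -/
noncomputable def Fn (S : Scheme.{0}) (U : Aff S) : CommRingCat.{0} := S.presheaf.obj (op U.1)

/-- Restriction of functions. -/
noncomputable def Fn.res {S : Scheme.{0}} {V U : Aff S} (h : V ≤ U) : Fn S U ⟶ Fn S V :=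
  S.presheaf.map (homOfLE h).op

/-- The value of a function at a point, in the residue field. -/
noncomputable def Fn.val {S : Scheme.{0}} {U : Aff S} (x : S) (h : x ∈ U.1) :
    Fn S U ⟶ S.residueField x :=
  S.evaluation U.1 x h

/-- `D(f)` as an affine open. -/
noncomputable def dOpen {S : Scheme.{0}} (U : Aff S) (f : Fn S U) : Aff S := S.affineBasicOpen f

theorem dOpen_le {S : Scheme.{0}} (U : Aff S) (f : Fn S U) : dOpen U f ≤ U :=
  S.affineBasicOpen_le f

/-- A quasi-coherent sheaf on `S`, given by its modules of sections over the affine open subsets,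
with restriction maps, such that the sections over `D(f) ⊆ U` are the localisation at `f` of the
sections over `U`. -/
structure QSh (S : Scheme.{0}) where
  /-- sections over the affine open `U` -/
  sec : Aff S → Type
  [grp : ∀ U, AddCommGroup (sec U)]
  [mod : ∀ U, Module (Fn S U) (sec U)]
  /-- restriction maps -/
  res : ∀ {V U : Aff S}, V ≤ U → sec U → sec V
  res_add : ∀ {V U : Aff S} (h : V ≤ U) (m m' : sec U), res h (m + m') = res h m + res h m'
  res_smul : ∀ {V U : Aff S} (h : V ≤ U) (a : Fn S U) (m : sec U),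
    res h (a • m) = Fn.res h a • res h m
  res_id : ∀ (U : Aff S) (m : sec U), res le_rfl m = m
  res_comp : ∀ {W V U : Aff S} (h : V ≤ U) (h' : W ≤ V) (m : sec U),
    res h' (res h m) = res (h'.trans h) m
  inj : ∀ (U : Aff S) (f : Fn S U) (m : sec U), res (dOpen_le U f) m = 0 → ∃ n : ℕ, f ^ n • m = 0
  surj : ∀ (U : Aff S) (f : Fn S U) (x : sec (dOpen U f)), ∃ (n : ℕ) (m : sec U),
    res (dOpen_le U f) m = (Fn.res (dOpen_le U f) f) ^ n • x

attribute [instance] QSh.grp QSh.mod

/-- Morphisms of quasi-coherent sheaves. -/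
@[ext]
structure QSh.Hom {S : Scheme.{0}} (M N : QSh S) where
  /-- the map on sections -/
  app : ∀ U : Aff S, M.sec U → N.sec U
  app_add : ∀ (U : Aff S) (m m' : M.sec U), app U (m + m') = app U m + app U m'
  app_smul : ∀ (U : Aff S) (a : Fn S U) (m : M.sec U), app U (a • m) = a • app U m
  res_app : ∀ {V U : Aff S} (h : V ≤ U) (m : M.sec U), N.res h (app U m) = app V (M.res h m)

/-- The identity. -/
def QSh.Hom.idd {S : Scheme.{0}} (M : QSh S) : QSh.Hom M M :=
  ⟨fun _ m => m, fun _ _ _ => rfl, fun _ _ _ => rfl, fun _ _ => rfl⟩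

/-- Composition. -/
def QSh.Hom.cmp {S : Scheme.{0}} {M N K : QSh S} (f : QSh.Hom M N) (g : QSh.Hom N K) :
    QSh.Hom M K :=
  ⟨fun U m => g.app U (f.app U m), fun U m m' => by rw [f.app_add, g.app_add],
    fun U a m => by rw [f.app_smul, g.app_smul], fun h m => by rw [g.res_app, f.res_app]⟩

instance catStruct (S : Scheme.{0}) : CategoryStruct (QSh S) where
  Hom M N := QSh.Hom M N
  id M := QSh.Hom.idd M
  comp f g := QSh.Hom.cmp f g

instance cat (S : Scheme.{0}) : Category (QSh S) where
  id_comp _ := rfl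
  comp_id _ := rfl
  assoc _ _ _ := rfl

end Pool.Agent.BE.C
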