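import Pool.Agent.BE.Stab

/-!
# BE-CTr: transport of a stability condition along a triangulated equivalence

`Φ : D₁ ⥤ D₂` triangulated equivalence, `T₂ (Φ X) ↔ T₁ X`. Put `P₂ φ Y := ∃ X, σ.P φ X ∧ Nonempty (Φ.obj X ≅ Y)`,
`Z₂ Y := σ.Z (Φ.objPreimage Y)`. First: `σ.Z` is invariant under isomorphisms of objects of `T₁` (`Z_add` for the
triangle `X → Y → 0`; `Z 0 = 0`). Axioms: `P_shift`: `Φ.commShiftIso 1`, and `X' ≅ (X'⟦-1⟧)⟦1⟧`; `hom_zero`: `Φ` full;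
`hn`: `Y ≅ Φ X`, map the filtration of `X` (`Φ.map_distinguished`), transport along isomorphisms
(`isomorphic_distinguished`); `Z_add`: a triangle in `D₂` comes from one in `D₁` (complete a preimage of the first
map to a triangle, compare the cones: `isoTriangleOfIso₁₂`, `Φ` reflects isomorphisms); `fin_len`: chains lift
to `D₁` the same way. `stableOf`: both directions by mapping/lifting triangles.
-/

open CategoryTheory CategoryTheory.Limits CategoryTheory.Pretriangulated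

namespace Pool.Agent.BE.C

universe v1 v2 u1 u2

variable {D₁ : Type u1} [Category.{v1} D₁] [Preadditive D₁] [HasZeroObject D₁] [HasShift D₁ ℤ]
  [∀ n : ℤ, (shiftFunctor D₁ n).Additive] [Pretriangulated D₁]
  {D₂ : Type u2} [Category.{v2} D₂] [Preadditive D₂] [HasZeroObject D₂] [HasShift D₂ ℤ]
  [∀ n : ℤ, (shiftFunctor D₂ n).Additive] [Pretriangulated D₂]

section Z

variable {T₁ : ObjectProperty D₁} [T₁.IsTriangulated]

private theorem z_zero (σ : StabCond T₁) {O : D₁} (hO : IsZero O) (hTO : T₁ O) : σ.Z O = 0 := by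
  have hd : Triangle.mk (𝟙 O) (0 : O ⟶ O) (0 : O ⟶ O⟦(1 : ℤ)⟧) ∈ distTriang D₁ := by
    refine isomorphic_distinguished _ (contractible_distinguished O) _ ?_
    exact Triangle.isoMk _ _ (Iso.refl O) (Iso.refl O) (hO.iso (isZero_zero D₁))
      rfl ((isZero_zero D₁).eq_of_tgt _ _) (hO.eq_of_src _ _)
  have := σ.Z_add O O O _ _ _ hd hTO hTO hTO
  simpa using this

private theorem z_iso (σ : StabCond T₁) {X Y : D₁} (e : X ≅ Y) (hX : T₁ X) (hY : T₁ Y)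
    {O : D₁} (hO : IsZero O) (hTO : T₁ O) : σ.Z X = σ.Z Y := by
  have hd : Triangle.mk e.hom (0 : Y ⟶ O) (0 : O ⟶ X⟦(1 : ℤ)⟧) ∈ distTriang D₁ := by
    refine isomorphic_distinguished _ (contractible_distinguished X) _ ?_
    exact Triangle.isoMk _ _ (Iso.refl X) e.symm (hO.iso (isZero_zero D₁))
      (by
        change e.hom ≫ e.inv = 𝟙 X ≫ 𝟙 X
        rw [e.hom_inv_id, Category.comp_id]) ((isZero_zero D₁).eq_of_tgt _ _)
      (hO.eq_of_src _ _)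
  have := σ.Z_add X Y O _ _ _ hd hX hY hTO
  rw [this, z_zero σ hO hTO, add_zero]

private theorem exists_zero_mem (T : ObjectProperty D₁) [T.IsTriangulated] :
    ∃ O : D₁, IsZero O ∧ T O := by
  obtain ⟨O, hO, hT⟩ := T.exists_prop_of_containsZero
  exact ⟨O, hO, hT⟩

end Z

section Lift

variable (Φ : D₁ ⥤ D₂) [Φ.CommShift ℤ] [Φ.IsTriangulated] [Φ.IsEquivalence]

private theorem map_zero_iff (X : D₁) : IsZero (Φ.obj X) ↔ IsZero X := by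
  rw [IsZero.iff_id_eq_zero, IsZero.iff_id_eq_zero]
  constructor
  · intro h
    apply Φ.map_injective
    rw [Φ.map_id, h, Functor.map_zero]
  · intro h
    rw [← Φ.map_id, h, Functor.map_zero]

omit [Φ.IsEquivalence] in
private theorem map_tri {A X B : D₁} {f : A ⟶ X} {g : X ⟶ B} {h : B ⟶ A⟦(1 : ℤ)⟧}
    (hT : Triangle.mk f g h ∈ distTriang D₁) :
    Triangle.mk (Φ.map f) (Φ.map g) (Φ.map h ≫ (Φ.commShiftIso (1 : ℤ)).hom.app A) ∈
      distTriang D₂ :=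
  Φ.map_distinguished _ hT

private theorem lift_tri {A X B : D₂} {f : A ⟶ X} {g : X ⟶ B} {h : B ⟶ A⟦(1 : ℤ)⟧}
    (hT : Triangle.mk f g h ∈ distTriang D₂) {A' X' : D₁} (a : Φ.obj A' ≅ A) (x : Φ.obj X' ≅ X) :
    ∃ (B' : D₁) (f' : A' ⟶ X') (g' : X' ⟶ B') (h' : B' ⟶ A'⟦(1 : ℤ)⟧),
      Triangle.mk f' g' h' ∈ distTriang D₁ ∧ Nonempty (Φ.obj B' ≅ B) := by
  obtain ⟨B', g', h', hT'⟩ := distinguished_cocone_triangle (Φ.preimage (a.hom ≫ f ≫ x.inv))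
  refine ⟨B', Φ.preimage (a.hom ≫ f ≫ x.inv), g', h', hT', ?_⟩
  have hm := map_tri Φ hT'
  have e := isoTriangleOfIso₁₂ _ _ hm hT a x (by
    change Φ.map (Φ.preimage (a.hom ≫ f ≫ x.inv)) ≫ x.hom = a.hom ≫ f
    rw [Φ.map_preimage]
    simp)
  exact ⟨Triangle.π₃.mapIso e⟩

end Lift

section Transport

variable (Φ : D₁ ⥤ D₂) [Φ.CommShift ℤ] [Φ.IsTriangulated] [Φ.IsEquivalence]
  {T₁ : ObjectProperty D₁} (σ : StabCond T₁)

/-- the transported slicing -/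
private def PP (φ : ℝ) : ObjectProperty D₂ := fun Y => ∃ X, σ.P φ X ∧ Nonempty (Φ.obj X ≅ Y)

omit [HasZeroObject D₂] [∀ (n : ℤ), (shiftFunctor D₂ n).Additive] [Pretriangulated D₂] in
omit [Φ.CommShift ℤ] [Φ.IsTriangulated] in
private theorem PP_iff {φ : ℝ} {X : D₁} {Y : D₂} (e : Φ.obj X ≅ Y) :
    PP Φ σ φ Y ↔ σ.P φ X := by
  constructor
  · rintro ⟨X', hX', ⟨e'⟩⟩
    exact σ.P_iso φ _ _ (Φ.preimageIso (e' ≪≫ e.symm)) hX'
  · intro h
    exact ⟨X, h, ⟨e⟩⟩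

private theorem hn_map {l : List ℝ} {X : D₁} (h : HNFilt σ.P l X) :
    ∀ Y : D₂, (Φ.obj X ≅ Y) → HNFilt (PP Φ σ) l Y := by
  induction h with
  | zero X h =>
    intro Y e
    exact HNFilt.zero _ (((map_zero_iff Φ X).2 h).of_iso e.symm)
  | cons φ l E X A f g h hT hA hA0 hl hE ih =>
    intro Y e
    refine HNFilt.cons φ l (Φ.obj E) Y (Φ.obj A) (Φ.map f ≫ e.hom) (e.inv ≫ Φ.map g)
      (Φ.map h ≫ (Φ.commShiftIso (1 : ℤ)).hom.app E) ?_ ((PP_iff Φ σ (Iso.refl _)).2 hA)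
      (fun h0 => hA0 ((map_zero_iff Φ A).1 h0)) hl (ih _ (Iso.refl _))
    refine isomorphic_distinguished _ (map_tri Φ hT) _ ?_
    refine Triangle.isoMk _ _ (Iso.refl _) e.symm (Iso.refl _) ?_ ?_ ?_
    · change (Φ.map f ≫ e.hom) ≫ e.inv = 𝟙 _ ≫ Φ.map f
      simp
    · change (e.inv ≫ Φ.map g) ≫ 𝟙 _ = e.inv ≫ Φ.map g
      simp
    · change (Φ.map h ≫ (Φ.commShiftIso (1 : ℤ)).hom.app E) ≫
        (shiftFunctor D₂ (1 : ℤ)).map (𝟙 _) =
        𝟙 _ ≫ (Φ.map h ≫ (Φ.commShiftIso (1 : ℤ)).hom.app E)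
      simp

private theorem chain_lift {φ : ℝ} {n : ℕ} {Y : D₂} (h : Chain (PP Φ σ φ) n Y) :
    ∀ X : D₁, (Φ.obj X ≅ Y) → Chain (σ.P φ) n X := by
  induction h with
  | zero Y h =>
    intro X e
    exact Chain.zero _ ((map_zero_iff Φ X).1 (h.of_iso e))
  | succ n E Y A f g h hT hA hA0 hX hE hQE ih =>
    intro X e
    obtain ⟨E', hE', ⟨eE⟩⟩ := hQE
    obtain ⟨A', f', g', h', hT', ⟨eA⟩⟩ := lift_tri Φ hT eE e
    exact Chain.succ n E' X A' f' g' h' hT' ((PP_iff Φ σ eA).1 hA)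
      (fun h0 => hA0 (((map_zero_iff Φ A').2 h0).of_iso eA.symm)) ((PP_iff Φ σ e).1 hX)
      (ih E' eE) hE'

end Transport

theorem exists_transport (Φ : D₁ ⥤ D₂) [Φ.CommShift ℤ] [Φ.IsTriangulated] [Φ.IsEquivalence]
    {T₁ : ObjectProperty D₁} {T₂ : ObjectProperty D₂} [T₁.IsTriangulated]
    [T₁.IsClosedUnderIsomorphisms] [T₂.IsClosedUnderIsomorphisms]
    (hT : ∀ X, T₂ (Φ.obj X) ↔ T₁ X) (σ : StabCond T₁) :
    ∃ τ : StabCond T₂, (∀ X, T₁ X → τ.Z (Φ.obj X) = σ.Z X) ∧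
      ∀ φ X, τ.StableOf φ (Φ.obj X) ↔ σ.StableOf φ X := by
  obtain ⟨O, hO, hTO⟩ := exists_zero_mem T₁
  have hTiso : ∀ {X : D₁} {Y : D₂}, (Φ.obj X ≅ Y) → (T₂ Y ↔ T₁ X) := by
    intro X Y e
    rw [← hT X]
    exact ⟨fun h => T₂.prop_of_iso e.symm h, fun h => T₂.prop_of_iso e h⟩
  have hZ : ∀ {X : D₁} {Y : D₂}, (Φ.obj X ≅ Y) → T₁ X →
      σ.Z (Φ.objPreimage Y) = σ.Z X := by
    intro X Y e hX
    refine z_iso σ (Φ.preimageIso (Φ.objObjPreimageIso Y ≪≫ e.symm)) ?_ hX hO hTO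
    exact (hTiso (Φ.objObjPreimageIso Y)).1 ((hTiso e).2 hX)
  let τ : StabCond T₂ :=
    { P := PP Φ σ
      P_le := by
        rintro φ Y ⟨X, hX, ⟨e⟩⟩
        exact (hTiso e).2 (σ.P_le φ X hX)
      P_iso := by
        rintro φ Y Y' e ⟨X, hX, ⟨e'⟩⟩
        exact ⟨X, hX, ⟨e' ≪≫ e⟩⟩
      P_zero := by
        intro φ Y hY
        refine ⟨Φ.objPreimage Y, σ.P_zero φ _ ?_, ⟨Φ.objObjPreimageIso Y⟩⟩
        exact (map_zero_iff Φ _).1 (hY.of_iso (Φ.objObjPreimageIso Y))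
      P_shift := by
        intro φ Y
        let Y' := Φ.objPreimage Y
        let y : Φ.obj Y' ≅ Y := Φ.objObjPreimageIso Y
        let y1 : Φ.obj (Y'⟦(1 : ℤ)⟧) ≅ Y⟦(1 : ℤ)⟧ :=
          (Φ.commShiftIso (1 : ℤ)).app Y' ≪≫ (shiftFunctor D₂ (1 : ℤ)).mapIso y
        rw [PP_iff Φ σ y, PP_iff Φ σ y1]
        exact σ.P_shift φ Y'
      hom_zero := by
        rintro φ ψ hlt X Y ⟨X', hX', ⟨x⟩⟩ ⟨Y', hY', ⟨y⟩⟩ f
        have h0 : Φ.preimage (x.hom ≫ f ≫ y.inv) = 0 := σ.hom_zero φ ψ hlt X' Y' hX' hY' _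
        have h1 : x.hom ≫ f ≫ y.inv = 0 := by
          rw [← Φ.map_preimage (x.hom ≫ f ≫ y.inv), h0, Functor.map_zero]
        have h2 : f = x.inv ≫ (x.hom ≫ f ≫ y.inv) ≫ y.hom := by simp
        rw [h2, h1]
        simp
      hn := by
        intro Y hY
        have hX : T₁ (Φ.objPreimage Y) := (hTiso (Φ.objObjPreimageIso Y)).1 hY
        obtain ⟨l, hl⟩ := σ.hn _ hX
        exact ⟨l, hn_map Φ σ hl Y (Φ.objObjPreimageIso Y)⟩
      Z := fun Y => σ.Z (Φ.objPreimage Y)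
      Z_add := by
        intro X Y W f g h hd hX hY hW
        obtain ⟨W', f', g', h', hd', ⟨w⟩⟩ :=
          lift_tri Φ hd (Φ.objObjPreimageIso X) (Φ.objObjPreimageIso Y)
        have hW' : T₁ W' := (hTiso w).1 hW
        rw [hZ w hW']
        exact σ.Z_add _ _ _ f' g' h' hd' ((hTiso (Φ.objObjPreimageIso X)).1 hX)
          ((hTiso (Φ.objObjPreimageIso Y)).1 hY) hW'
      Z_P := by
        rintro φ Y ⟨X, hX, ⟨e⟩⟩ hY0
        rw [hZ e (σ.P_le φ X hX)]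
        exact σ.Z_P φ X hX (fun h0 => hY0 (((map_zero_iff Φ X).2 h0).of_iso e.symm))
      fin_len := by
        rintro φ Y ⟨X, hX, ⟨e⟩⟩
        obtain ⟨N, hN⟩ := σ.fin_len φ X hX
        exact ⟨N, fun n hn => hN n (chain_lift Φ σ hn X e)⟩ }
  refine ⟨τ, ?_, ?_⟩
  · intro X hX
    exact hZ (Iso.refl _) hX
  · intro φ X
    constructor
    · rintro ⟨h1, h2, h3⟩
      refine ⟨(PP_iff Φ σ (Iso.refl _)).1 h1, fun h0 => h2 ((map_zero_iff Φ X).2 h0), ?_⟩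
      intro A B f g h hd hA hB
      rcases h3 _ _ _ _ _ (map_tri Φ hd) ((PP_iff Φ σ (Iso.refl _)).2 hA)
        ((PP_iff Φ σ (Iso.refl _)).2 hB) with h0 | h0
      · exact Or.inl ((map_zero_iff Φ A).1 h0)
      · exact Or.inr ((map_zero_iff Φ B).1 h0)
    · rintro ⟨h1, h2, h3⟩
      refine ⟨(PP_iff Φ σ (Iso.refl _)).2 h1, fun h0 => h2 ((map_zero_iff Φ X).1 h0), ?_⟩
      rintro A B f g h hd ⟨A', hA', ⟨a⟩⟩ hB
      obtain ⟨B', f', g', h', hd', ⟨b⟩⟩ := lift_tri Φ hd a (Iso.refl (Φ.obj X))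
      rcases h3 _ _ _ _ _ hd' hA' ((PP_iff Φ σ b).1 hB) with h0 | h0
      · exact Or.inl (((map_zero_iff Φ A').2 h0).of_iso a.symm)
      · exact Or.inr (((map_zero_iff Φ B').2 h0).of_iso b.symm)

end Pool.Agent.BE.C
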