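import Pool.Agent.BE.C.StmtDefs
import Pool.Agent.BE.C.Cmp
import Pool.Agent.BE.C.Tr
import Pool.Agent.BE.Final

/-!
# Project BE: the final theorem in compact form
-/

open CategoryTheory CategoryTheory.Limits CategoryTheory.Pretriangulated AlgebraicGeometry
  TopologicalSpace DerivedCategory Opposite

namespace Pool.Agent.BE.C

universe w v u

section

variable {D : Type u} [Category.{v} D] [Preadditive D] [HasZeroObject D] [HasShift D ℤ]
  [∀ n : ℤ, (shiftFunctor D n).Additive] [Pretriangulated D]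
  {T : ObjectProperty D}

theorem stableOf_iso (σ : StabCond T) {φ : ℝ} {X Y : D} (e : X ≅ Y) (h : σ.StableOf φ X) :
    σ.StableOf φ Y := by
  refine ⟨σ.P_iso φ X Y e h.1, fun h0 => h.2.1 (h0.of_iso e), ?_⟩
  intro A B f g k hT hA hB
  refine h.2.2 A B (f ≫ e.inv) (e.hom ≫ g) k ?_ hA hB
  refine isomorphic_distinguished _ hT _ ?_
  exact Triangle.isoMk (Triangle.mk (f ≫ e.inv) (e.hom ≫ g) k) (Triangle.mk f g k) (Iso.refl A) e
    (Iso.refl B) (by simp [Triangle.mk]) (by simp [Triangle.mk]) (by simp [Triangle.mk])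

theorem Z_zero [T.IsTriangulated] [T.IsClosedUnderIsomorphisms] (σ : StabCond T) {X : D}
    (hX : IsZero X) (hT : T X) : σ.Z X = 0 := by
  have h := σ.Z_add X X X (𝟙 X) 0 0 ?_ hT hT hT
  · simpa using h
  · refine isomorphic_distinguished _ (contractible_distinguished X) _ ?_
    exact Triangle.isoMk (Triangle.mk (𝟙 X) 0 0) (contractibleTriangle X) (Iso.refl _)
      (Iso.refl _) (hX.iso (isZero_zero D)) (by simp [contractibleTriangle, Triangle.mk])
      (hX.eq_of_src _ _) (hX.eq_of_src _ _)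

theorem Z_iso [T.IsTriangulated] [T.IsClosedUnderIsomorphisms] (σ : StabCond T) {X Y : D}
    (e : X ≅ Y) (hT : T X) : σ.Z X = σ.Z Y := by
  have hY : T Y := T.prop_of_iso e hT
  obtain ⟨O, hO, hTO⟩ : ∃ O : D, IsZero O ∧ T O := ObjectProperty.ContainsZero.exists_zero
  have h := σ.Z_add X Y O e.hom 0 0 ?_ hT hY hTO
  · rw [Z_zero σ hO hTO, add_zero] at h
    exact h.symm
  · refine isomorphic_distinguished _ (contractible_distinguished X) _ ?_
    exact Triangle.isoMk (Triangle.mk e.hom 0 0) (contractibleTriangle X) (Iso.refl _) e.symm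
      (hO.iso (isZero_zero D)) (by simp [contractibleTriangle, Triangle.mk])
      ((isZero_zero D).eq_of_tgt _ _) (hO.eq_of_src _ _)

end

theorem final (B : C.QuotSurface) [HasDerivedCategory.{w} (QSh B.S)] (σ : Stab B.S) :
    (∀ x : B.S, IsClosed ({x} : Set B.S) → ∃ φ : ℝ, SkyStable σ φ x) ∧
    (∀ x y : B.S, IsClosed ({x} : Set B.S) → IsClosed ({y} : Set B.S) → ∀ φ ψ : ℝ,
      SkyStable σ φ x → SkyStable σ ψ y → |φ - ψ| < 2) ∧
    ((∀ x y : B.S, IsClosed ({x} : Set B.S) → IsClosed ({y} : Set B.S) → skyZ σ x = skyZ σ y) →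
      ∃ φ : ℝ, ∀ x : B.S, IsClosed ({x} : Set B.S) → SkyStable σ φ x) := by
  let B' : BE.QuotSurface :=
    { E := B.E, F := B.F, C := B.C, S := B.S, sE := B.sE, sF := B.sF, sC := B.sC, sS := B.sS,
      hE := B.hE, hF := B.hF, hC := B.hC, gE := B.gE, gF := B.gF, gC := B.gC, hS := B.hS,
      intS := B.intS, dimS := B.dimS, G := B.G, grp := B.grp, fin := B.fin, ρE := B.ρE,
      ρF := B.ρF, overE := B.overE, overF := B.overF, q := B.q, overq := B.overq, hq := B.hq,
      π := B.π, overπ := B.overπ, hπ := B.hπ }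
  haveI : IsNoetherian B.S := noeth_of_proj B.sS B.hS
  letI : HasDerivedCategory (QCoh B.S) := HasDerivedCategory.standard _
  haveI := isEquiv_der (toQ B.S)
  haveI : (Db B.S).IsTriangulated := db_tri
  obtain ⟨τ, hZ, hS⟩ := exists_transport (toQ B.S).mapDerivedCategory (T₂ := Dbc B.S) dbc_iff σ
  have e : ∀ (x : B.S) (hx : IsClosed ({x} : Set B.S)),
      Nonempty ((toQ B.S).mapDerivedCategory.obj ((singleFunctor (QSh B.S) 0).obj (C.sky x)) ≅
        Ox x hx) := by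
    intro x hx
    obtain ⟨i⟩ := sky_iso x hx
    exact ⟨((toQ B.S).mapDerivedCategorySingleFunctor 0).app (C.sky x) ≪≫
      (singleFunctor (QCoh B.S) 0).mapIso i⟩
  have hst : ∀ (x : B.S) (hx : IsClosed ({x} : Set B.S)) (φ : ℝ),
      SkyStable σ φ x ↔ τ.StableOf φ (Ox x hx) := by
    intro x hx φ
    obtain ⟨i⟩ := e x hx
    rw [SkyStable, ← hS]
    exact ⟨fun h => stableOf_iso τ i h, fun h => stableOf_iso τ i.symm h⟩
  have hDb : ∀ (x : B.S), IsClosed ({x} : Set B.S) →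
      Db B.S ((singleFunctor (QSh B.S) 0).obj (C.sky x)) := by
    intro x hx
    obtain ⟨i⟩ := e x hx
    rw [← dbc_iff]
    exact (Dbc B.S).prop_of_iso i.symm (dbc_Ox x hx)
  have hsz : ∀ (x : B.S) (hx : IsClosed ({x} : Set B.S)), skyZ σ x = τ.Z (Ox x hx) := by
    intro x hx
    obtain ⟨i⟩ := e x hx
    rw [skyZ, ← hZ _ (hDb x hx)]
    exact Z_iso τ i ((dbc_iff _).2 (hDb x hx))
  obtain ⟨h1, h2, h3⟩ := geometric_of_quot B' τ
  refine ⟨fun x hx => ?_, fun x y hx hy φ ψ a b => ?_, fun h => ?_⟩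
  · obtain ⟨φ, hφ⟩ := h1 x hx
    exact ⟨φ, (hst x hx φ).2 hφ⟩
  · exact h2 x y hx hy φ ψ ((hst x hx φ).1 a) ((hst y hy ψ).1 b)
  · obtain ⟨φ, hφ⟩ := h3 (fun x y hx hy => by rw [← hsz x hx, ← hsz y hy]; exact h x y hx hy)
    exact ⟨φ, fun x hx => (hst x hx φ).2 (hφ x hx)⟩

end Pool.Agent.BE.C
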