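import Pool.Agent.BE.C.Defs

/-!
# Project BE: quotient surfaces (definitions used in the final statement)
-/

open CategoryTheory CategoryTheory.Limits AlgebraicGeometry TopologicalSpace

namespace Pool.Agent.BE.C

/-- The surfaces `S = (E × F)/G`: `E`, `F`, `C = E/G` smooth projective curves over `ℂ` of positive
genus, `G` a finite group acting on `E` (freely, with quotient `C`) and on `F`, and `S` the
quotient of `E × F` by the diagonal action, a projective surface. If `E`, `F` are elliptic curves,
`G` acts on `E` by translations and `F/G ≅ ℙ^1` this is a bielliptic surface. -/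
structure QuotSurface where
  /-- first curve -/
  E : Scheme.{0}
  /-- second curve -/
  F : Scheme.{0}
  /-- the quotient `E/G` -/
  C : Scheme.{0}
  /-- the surface -/
  S : Scheme.{0}
  /-- structure morphism of `E` -/
  sE : E ⟶ SpecC
  /-- structure morphism of `F` -/
  sF : F ⟶ SpecC
  /-- structure morphism of `C` -/
  sC : C ⟶ SpecC
  /-- structure morphism of `S` -/
  sS : S ⟶ SpecC
  hE : IsCurve sE
  hF : IsCurve sF
  hC : IsCurve sC
  gE : PosGenus E
  gF : PosGenus F
  gC : PosGenus C
  hS : IsProj sS
  intS : IsIntegral S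
  dimS : topologicalKrullDim S = 2
  /-- the finite group -/
  G : Type
  /-- group structure -/
  grp : Group G
  fin : Finite G
  /-- action on `E` -/
  ρE : G →* Aut E
  /-- action on `F` -/
  ρF : G →* Aut F
  overE : ∀ g, (ρE g).hom ≫ sE = sE
  overF : ∀ g, (ρF g).hom ≫ sF = sF
  /-- the quotient map `E → C = E/G` -/
  q : E ⟶ C
  overq : q ≫ sC = sE
  hq : IsFreeQuotient (fun g => (ρE g).hom) q
  /-- the quotient map `E × F → S = (E × F)/G` -/
  π : pullback sE sF ⟶ S
  overπ : π ≫ sS = pullback.fst sE sF ≫ sE
  hπ : IsFreeQuotient (fun g => prodAct sE sF (ρE g).hom (ρF g).hom (overE g) (overF g)) π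

end Pool.Agent.BE.C
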