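import Pool.Agent.BE.C.Defs0
import Pool.Agent.BE.QCAb

/-!
# BE-CToQ: the equivalence of `QSh S` with `QCoh S`; `QSh S` is abelian

`faithful`, `full`: `PM.hom_ext`, `PM.mkHom`/`mkHom` (`QCAb.lean`). `essSurj`: for `M : QCoh S` take the sheaf
with `sec U := BE.sec M U`, `res := res M`; the isomorphism is the identity on sections (`mkHom` in both
directions). `nonempty_abelian`: `Preadditive.ofFullyFaithful`, `abelianOfEquivalence`
(Mathlib/CategoryTheory/Abelian/Transfer.lean; `HasFiniteProducts (QSh S)` from the equivalence).
-/

open CategoryTheory CategoryTheory.Limits AlgebraicGeometry Opposite TopologicalSpace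

namespace Pool.Agent.BE.C

variable {S : Scheme.{0}}

/-- the presheaf data of a quasi-coherent sheaf -/
noncomputable def toData (M : QSh S) : SecData S where
  X U := M.sec U
  grp U := M.grp U
  mod U := M.mod U
  r h := AddMonoidHom.mk' (M.res h) (M.res_add h)
  r_smul h a m := M.res_smul h a m
  r_id U m := M.res_id U m
  r_comp h h' m := M.res_comp h h' m

theorem toData_isQC (M : QSh S) : IsQC (toData M).toPM := ⟨M.inj, M.surj⟩

/-- on objects -/
noncomputable def toObj (M : QSh S) : QCoh S := ⟨(toData M).toPM, toData_isQC M⟩

/-- the identity map on sections -/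
noncomputable def teq (M : QSh S) (U : Aff S) : BE.sec (toObj M) U ≃ₗ[Γ(S, U.1)] (toData M).X U :=
  (toData M).secEquiv U

/-- the functor -/
noncomputable def toQ (S : Scheme.{0}) : QSh S ⥤ QCoh S where
  obj M := toObj M
  map {M N} f := mkHom (M := toObj M) (N := toObj N)
    (fun U =>
      { toFun := fun m => (teq N U).symm (f.app U (teq M U m))
        map_add' := fun a b => f.app_add U a b
        map_smul' := fun a m => f.app_smul U a m })
    (fun h m => f.res_app h m)
  map_id M := rfl
  map_comp f g := rfl

lemma ap_toQ {M N : QSh S} (f : M ⟶ N) (U : Aff S) (m : M.sec U) :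
    ap ((toQ S).map f) U ((teq M U).symm m) = (teq N U).symm (QSh.Hom.app f U m) := rfl

instance toQ_faithful : (toQ S).Faithful where
  map_injective {M N} f g h := by
    refine QSh.Hom.ext ?_
    funext U m
    have := congrArg (fun k => ap k U ((teq M U).symm m)) h
    exact (teq N U).symm.injective this

instance toQ_full : (toQ S).Full where
  map_surjective {M N} f := by
    refine ⟨⟨fun U m => teq N U (ap f U ((teq M U).symm m)), ?_, ?_, ?_⟩, ?_⟩
    · intro U m m'
      exact map_add (ap f U) m m'
    · intro U a m
      exact (ap f U).map_smul (show Γ(S, U.1) from a) ((teq M U).symm m)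
    · intro V U h m
      exact res_ap f h m
    · exact qhom_ext (fun U m => rfl)

/-- the sheaf in compact form -/
noncomputable def ofQ (M : QCoh S) : QSh S where
  sec U := BE.sec M U
  grp _ := inferInstance
  mod U := inferInstanceAs (Module Γ(S, U.1) (BE.sec M U))
  res h m := BE.res M h m
  res_add h m m' := map_add (BE.res M h) m m'
  res_smul h a m := PM.res_smul M.obj h a m
  res_id U m := PM.res_id M.obj U _ m
  res_comp h h' m := PM.res_res M.obj h h' m
  inj U f m hm := M.property.inj U f m hm
  surj U f x := M.property.surj U f x

instance toQ_essSurj : (toQ S).EssSurj where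
  mem_essImage M := by
    refine ⟨ofQ M, ⟨?_⟩⟩
    exact
      { hom := mkHom (M := toObj (ofQ M)) (N := M)
          (fun U =>
            { toFun := fun m => m
              map_add' := fun _ _ => rfl
              map_smul' := fun _ _ => rfl }) (fun h m => rfl)
        inv := mkHom (M := M) (N := toObj (ofQ M))
          (fun U =>
            { toFun := fun m => m
              map_add' := fun _ _ => rfl
              map_smul' := fun _ _ => rfl }) (fun h m => rfl)
        hom_inv_id := qhom_ext (fun _ _ => rfl)
        inv_hom_id := qhom_ext (fun _ _ => rfl) }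

instance toQ_equiv : (toQ S).IsEquivalence where

/-- Quasi-coherent sheaves form an abelian category. -/
theorem nonempty_abelian (S : Scheme.{0}) : Nonempty (Abelian (QSh S)) := by
  let _ : Preadditive (QSh S) :=
    Preadditive.ofFullyFaithful (Functor.FullyFaithful.ofFullyFaithful (toQ S))
  have : HasFiniteProducts (QSh S) :=
    ⟨fun n => ⟨fun K => Adjunction.hasLimit_of_comp_equivalence K (toQ S)⟩⟩
  exact ⟨abelianOfEquivalence (toQ S)⟩

end Pool.Agent.BE.C
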